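import Mathlib

/-!
Large simplices among dense families of `(d+2)`-tuples of points of a set of finite volume.
-/

set_option autoImplicit false

open MeasureTheory Set

namespace Pool.Agent.H791R3.Skel

variable {d : ℕ}

local notation "E" => EuclideanSpace ℝ (Fin d)

/-- the linear map `b ↦ ∑ b_i w_i` -/
noncomputable def F (w : Fin d → E) : E →ₗ[ℝ] E where
  toFun b := ∑ i, b i • w i
  map_add' a b := by
    simp only [PiLp.add_apply, add_smul, Finset.sum_add_distrib]
  map_smul' c a := by
    simp only [PiLp.smul_apply, smul_eq_mul, mul_smul, Finset.smul_sum, RingHom.id_apply]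

theorem F_apply (w : Fin d → E) (b : E) : F w b = ∑ i, b i • w i := rfl

theorem det_F (w : Fin d → E) :
    LinearMap.det (F w) = Matrix.det (Matrix.of fun i j => w j i) := by
  rw [← LinearMap.det_toMatrix (EuclideanSpace.basisFun (Fin d) ℝ).toBasis]
  congr 1
  ext i j
  rw [LinearMap.toMatrix_apply]
  simp [F_apply]

theorem continuous_det : Continuous fun w : Fin d → E => LinearMap.det (F w) := by
  have h : (fun w : Fin d → E => LinearMap.det (F w)) =
      fun w => Matrix.det (Matrix.of fun i j => w j i) := funext det_F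
  rw [h]
  apply Continuous.matrix_det
  refine continuous_matrix fun i j => ?_
  simp only [Matrix.of_apply]
  fun_prop

/-- the box -/
def Box (d : ℕ) : Set (EuclideanSpace ℝ (Fin d)) := {b | ∀ i, |b i| ≤ 1}

/-- the small box -/
def SBox (d : ℕ) : Set (EuclideanSpace ℝ (Fin d)) :=
  {b | ∀ i, 0 < b i ∧ b i < 1 / ((d : ℝ) + 1)}

theorem box_compact : IsCompact (Box d) := by
  have h : Box d = (EuclideanSpace.equiv (Fin d) ℝ).symm ''
      (Set.univ.pi fun _ => Set.Icc (-1 : ℝ) 1) := by
    ext b
    constructor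
    · intro hb
      refine ⟨EuclideanSpace.equiv (Fin d) ℝ b, ?_, by simp⟩
      intro i _
      exact abs_le.1 (hb i)
    · rintro ⟨a, ha, rfl⟩ i
      exact abs_le.2 (ha i (mem_univ i))
  rw [h]
  exact (isCompact_univ_pi fun _ => isCompact_Icc).image
    (EuclideanSpace.equiv (Fin d) ℝ).symm.continuous

theorem sbox_open : IsOpen (SBox d) := by
  have h : SBox d = ⋂ i, {b : EuclideanSpace ℝ (Fin d) | 0 < b i ∧ b i < 1 / ((d : ℝ) + 1)} := by
    ext b
    simp [SBox]
  rw [h]
  refine isOpen_iInter_of_finite fun i => ?_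
  have hc : Continuous fun b : EuclideanSpace ℝ (Fin d) => b i := by fun_prop
  exact (isOpen_lt continuous_const hc).inter (isOpen_lt hc continuous_const)

theorem sbox_pos : 0 < volume (SBox d) := by
  refine sbox_open.measure_pos _ ⟨(EuclideanSpace.equiv (Fin d) ℝ).symm
    fun _ => 1 / (2 * ((d : ℝ) + 1)), fun i => ?_⟩
  have h1 : (0 : ℝ) < (d : ℝ) + 1 := by positivity
  constructor
  · show (0 : ℝ) < 1 / (2 * ((d : ℝ) + 1))
    positivity
  · show 1 / (2 * ((d : ℝ) + 1)) < 1 / ((d : ℝ) + 1)
    apply one_div_lt_one_div_of_lt h1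
    linarith

theorem sbox_lt : volume (SBox d) < ⊤ := by
  refine (measure_mono ?_).trans_lt (box_compact (d := d)).measure_lt_top
  intro b hb i
  have := hb i
  rw [abs_of_pos this.1]
  refine this.2.le.trans ?_
  rw [div_le_one (by positivity)]
  linarith [Nat.cast_nonneg (α := ℝ) d]

/-- dependent vectors: one of them lies in the box of the others -/
theorem exists_box (z : Fin (d + 1) → E) :
    ∃ l : Fin (d + 1), z l ∈ F (fun m => z (l.succAbove m)) '' Box d := by
  have h1 : ¬ LinearIndependent ℝ z := by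
    intro h
    have := h.fintype_card_le_finrank
    simp at this
  rw [Fintype.not_linearIndependent_iff] at h1
  obtain ⟨g, hg, i0, hi0⟩ := h1
  obtain ⟨l, hl⟩ := Finite.exists_max fun i => |g i|
  have hl0 : g l ≠ 0 := by
    intro h
    have := hl i0
    rw [h, abs_zero] at this
    exact hi0 (abs_eq_zero.1 (le_antisymm this (abs_nonneg _)))
  refine ⟨l, (EuclideanSpace.equiv (Fin d) ℝ).symm fun m => - g (l.succAbove m) / g l, ?_, ?_⟩
  · intro i
    show |- g (l.succAbove i) / g l| ≤ 1
    rw [abs_div, abs_neg, div_le_one (abs_pos.2 hl0)]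
    exact hl _
  · rw [F_apply]
    rw [Fin.sum_univ_succAbove _ l] at hg
    have h2 : z l = - ((g l)⁻¹ • ∑ m, g (l.succAbove m) • z (l.succAbove m)) := by
      have h3 : g l • z l = - ∑ m, g (l.succAbove m) • z (l.succAbove m) :=
        eq_neg_of_add_eq_zero_left hg
      have h4 : z l = (g l)⁻¹ • (g l • z l) := by
        rw [smul_smul, inv_mul_cancel₀ hl0, one_smul]
      rw [h4, h3, smul_neg]
    rw [h2, Finset.smul_sum, ← Finset.sum_neg_distrib]
    refine Finset.sum_congr rfl fun m _ => ?_
    show (- g (l.succAbove m) / g l) • z (l.succAbove m) = _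
    rw [smul_smul, ← neg_smul]
    congr 1
    field_simp

/-- the set of `(y, w)` with `y` in the box of `w` -/
theorem closed_box : IsClosed {p : E × (Fin d → E) | p.1 ∈ F p.2 '' Box d} := by
  have hK : IsCompact (Box d) := box_compact
  have h1 : {p : E × (Fin d → E) | p.1 ∈ F p.2 '' Box d} =
      Prod.fst '' {q : (E × (Fin d → E)) × Box d | F q.1.2 q.2 = q.1.1} := by
    ext p
    constructor
    · rintro ⟨b, hb, h⟩
      exact ⟨(p, ⟨b, hb⟩), h, rfl⟩
    · rintro ⟨⟨p', b⟩, h, rfl⟩
      exact ⟨b, b.2, h⟩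
  rw [h1]
  have : CompactSpace (Box d) := isCompact_iff_compactSpace.1 hK
  apply isClosedMap_fst_of_compactSpace
  apply isClosed_eq
  · simp only [F_apply]
    fun_prop
  · fun_prop

/-- the bad fibre -/
def T (d : ℕ) (D : ℝ) : Set (EuclideanSpace ℝ (Fin d) × (Fin d → EuclideanSpace ℝ (Fin d))) :=
  {p | |LinearMap.det (F p.2)| < D ∧ p.1 ∈ F p.2 '' Box d}

theorem T_meas (D : ℝ) : MeasurableSet (T d D) := by
  apply MeasurableSet.inter
  · exact measurableSet_lt ((continuous_det.comp continuous_snd).measurable.abs) measurable_const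
  · exact closed_box.measurableSet

theorem T_fibre (D : ℝ) (w : Fin d → E) :
    volume {y : E | (y, w) ∈ T d D} ≤ ENNReal.ofReal D * volume (Box d) := by
  by_cases h : |LinearMap.det (F w)| < D
  · have h1 : {y : E | (y, w) ∈ T d D} ⊆ F w '' Box d := fun y hy => hy.2
    refine (measure_mono h1).trans ?_
    rw [Measure.addHaar_image_linearMap]
    gcongr
  · have h1 : {y : E | (y, w) ∈ T d D} = ∅ := by
      ext y
      simp [T, h]
    rw [h1, measure_empty]
    exact bot_le

/-- the bad set in the coordinates `(x_l, others)` -/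
def T' (d : ℕ) (D : ℝ) (S : Set (EuclideanSpace ℝ (Fin d))) :
    Set (EuclideanSpace ℝ (Fin d) × (Fin (d + 1) → EuclideanSpace ℝ (Fin d))) :=
  {p | (∀ j, p.2 j ∈ S) ∧ (p.1 - p.2 0, fun m : Fin d => p.2 m.succ - p.2 0) ∈ T d D}

theorem T'_meas (D : ℝ) {S : Set E} (hS : MeasurableSet S) : MeasurableSet (T' d D S) := by
  apply MeasurableSet.inter
  · have : {p : E × (Fin (d + 1) → E) | ∀ j, p.2 j ∈ S} =
        ⋂ j, (fun p : E × (Fin (d + 1) → E) => p.2 j) ⁻¹' S := by
      ext p; simp
    show MeasurableSet {p : E × (Fin (d + 1) → E) | ∀ j, p.2 j ∈ S}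
    rw [this]
    refine MeasurableSet.iInter fun j => ?_
    apply hS.preimage
    fun_prop
  · have h : Continuous fun p : E × (Fin (d + 1) → E) =>
        ((p.1 - p.2 0, fun m : Fin d => p.2 m.succ - p.2 0) : E × (Fin d → E)) := by
      fun_prop
    exact (T_meas D).preimage h.measurable

theorem T'_vol (D : ℝ) {S : Set E} (hS : MeasurableSet S) :
    volume (T' d D S) ≤ ENNReal.ofReal D * volume (Box d) * volume S ^ (d + 1) := by
  have h0 : volume (T' d D S) = (volume.prod volume) (T' d D S) := rfl
  rw [h0, Measure.prod_apply_symm (T'_meas D hS)]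
  have hP : MeasurableSet (Set.univ.pi fun _ : Fin (d + 1) => S) :=
    MeasurableSet.univ_pi fun _ => hS
  calc ∫⁻ v, volume ((fun y => (y, v)) ⁻¹' T' d D S) ∂(volume : Measure (Fin (d + 1) → E))
      ≤ ∫⁻ v, (Set.univ.pi fun _ : Fin (d + 1) => S).indicator
          (fun _ => ENNReal.ofReal D * volume (Box d)) v ∂volume := by
        apply lintegral_mono
        intro v
        by_cases hv : v ∈ Set.univ.pi fun _ : Fin (d + 1) => S
        · rw [indicator_of_mem hv]
          have h1 : (fun y => (y, v)) ⁻¹' T' d D S ⊆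
              (fun y => y - v 0) ⁻¹' {y : E | (y, fun m : Fin d => v m.succ - v 0) ∈ T d D} := by
            intro y hy
            exact hy.2
          refine (measure_mono h1).trans ?_
          rw [(measurePreserving_sub_right volume (v 0)).measure_preimage]
          · exact T_fibre D _
          · apply MeasurableSet.nullMeasurableSet
            exact (T_meas D).preimage (by fun_prop)
        · rw [indicator_of_notMem hv]
          have h1 : (fun y => (y, v)) ⁻¹' T' d D S = ∅ := by
            ext y
            simp only [mem_preimage, mem_empty_iff_false, iff_false]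
            intro hy
            exact hv fun j _ => hy.1 j
          show volume ((fun y => (y, v)) ⁻¹' T' d D S) ≤ 0
          rw [h1, measure_empty]
    _ = ENNReal.ofReal D * volume (Box d) * volume S ^ (d + 1) := by
        rw [lintegral_indicator hP, setLIntegral_const, volume_pi_pi]
        simp

/-- the set of tuples without a large simplex -/
def Bad (d : ℕ) (D : ℝ) (S : Set (EuclideanSpace ℝ (Fin d))) :
    Set (Fin (d + 2) → EuclideanSpace ℝ (Fin d)) :=
  {x | (∀ i, x i ∈ S) ∧
    ∀ l : Fin (d + 1), |LinearMap.det (F fun m => x (l.succAbove m).succ - x 0)| < D}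

theorem bad_vol (D : ℝ) {S : Set E} (hS : MeasurableSet S) :
    volume (Bad d D S) ≤
      ((d : ENNReal) + 1) * (ENNReal.ofReal D * volume (Box d) * volume S ^ (d + 1)) := by
  have h1 : Bad d D S ⊆ ⋃ l : Fin (d + 1),
      (MeasurableEquiv.piFinSuccAbove (fun _ : Fin (d + 2) => E) l.succ) ⁻¹' T' d D S := by
    intro x hx
    obtain ⟨l, hl⟩ := exists_box fun l : Fin (d + 1) => x l.succ - x 0
    rw [mem_iUnion]
    refine ⟨l, fun j => ?_, ?_⟩
    · exact hx.1 _
    · have e0 : (MeasurableEquiv.piFinSuccAbove (fun _ : Fin (d + 2) => E) l.succ x).1 = x l.succ :=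
        rfl
      have e1 : (MeasurableEquiv.piFinSuccAbove (fun _ : Fin (d + 2) => E) l.succ x).2 0 = x 0 := by
        show x (l.succ.succAbove 0) = x 0
        simp
      have e2 : ∀ m : Fin d, (MeasurableEquiv.piFinSuccAbove (fun _ : Fin (d + 2) => E) l.succ x).2
          m.succ = x (l.succAbove m).succ := by
        intro m
        show x (l.succ.succAbove m.succ) = _
        simp
      show ((MeasurableEquiv.piFinSuccAbove (fun _ : Fin (d + 2) => E) l.succ x).1 -
        (MeasurableEquiv.piFinSuccAbove (fun _ : Fin (d + 2) => E) l.succ x).2 0,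
        fun m : Fin d => (MeasurableEquiv.piFinSuccAbove (fun _ : Fin (d + 2) => E) l.succ x).2
          m.succ - (MeasurableEquiv.piFinSuccAbove (fun _ : Fin (d + 2) => E) l.succ x).2 0) ∈ T d D
      simp only [e0, e1, e2]
      exact ⟨hx.2 l, hl⟩
  refine (measure_mono h1).trans ((measure_iUnion_le _).trans ?_)
  rw [tsum_fintype]
  calc ∑ l : Fin (d + 1), volume
        ((MeasurableEquiv.piFinSuccAbove (fun _ : Fin (d + 2) => E) l.succ) ⁻¹' T' d D S)
      ≤ ∑ _l : Fin (d + 1), ENNReal.ofReal D * volume (Box d) * volume S ^ (d + 1) := by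
        refine Finset.sum_le_sum fun l _ => ?_
        rw [(volume_preserving_piFinSuccAbove (fun _ : Fin (d + 2) => E) l.succ).measure_preimage
          (T'_meas D hS).nullMeasurableSet]
        exact T'_vol D hS
    _ = _ := by
        rw [Finset.sum_const, Finset.card_univ, Fintype.card_fin, nsmul_eq_mul]
        push_cast
        rfl

/-- if the determinant is not small, the simplex is large -/
theorem simplex_large {D : ℝ} (hD : 0 < D) (y : E) (w : Fin d → E)
    (h : D ≤ |LinearMap.det (F w)|) (X : Fin (d + 1) → E) (h0 : X 0 = y)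
    (h1 : ∀ m : Fin d, X m.succ = w m + y) :
    AffineIndependent ℝ X ∧
      ENNReal.ofReal D * volume (SBox d) ≤ volume (convexHull ℝ (Set.range X)) := by
  have hdet : LinearMap.det (F w) ≠ 0 := by
    intro h2
    rw [h2, abs_zero] at h
    linarith
  have hw : LinearIndependent ℝ w := by
    rw [Fintype.linearIndependent_iff]
    intro g hg
    have hinj : Function.Injective (F w) := by
      have h3 : IsUnit (F w) := by
        rw [LinearMap.isUnit_iff_isUnit_det]
        exact isUnit_iff_ne_zero.2 hdet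
      exact ((Module.End.isUnit_iff _).1 h3).1
    have h4 : F w ((EuclideanSpace.equiv (Fin d) ℝ).symm g) = 0 := by
      rw [F_apply]
      exact hg
    rw [← map_zero (F w)] at h4
    have h5 := hinj h4
    intro i
    have h6 := congrArg (fun b : E => b i) h5
    exact h6
  constructor
  · rw [affineIndependent_iff_linearIndependent_vsub ℝ X 0]
    have h7 : (fun i : { i : Fin (d + 1) // i ≠ 0 } => X i -ᵥ X 0) =
        w ∘ fun i : { i : Fin (d + 1) // i ≠ 0 } => (i : Fin (d + 1)).pred i.2 := by
      funext i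
      obtain ⟨i, hi⟩ := i
      obtain ⟨m, rfl⟩ := Fin.exists_succ_eq.2 hi
      simp [h1, h0]
    rw [h7]
    apply hw.comp
    intro a b hab
    have := Fin.pred_inj.1 hab
    exact Subtype.ext this
  · have h8 : (fun b => b + y) '' (F w '' SBox d) ⊆ convexHull ℝ (Set.range X) := by
      rintro _ ⟨_, ⟨b, hb, rfl⟩, rfl⟩
      have hs : ∑ i, b i ≤ 1 := by
        calc ∑ i, b i ≤ ∑ _i : Fin d, 1 / ((d : ℝ) + 1) :=
              Finset.sum_le_sum fun i _ => (hb i).2.le
          _ = d / ((d : ℝ) + 1) := by
              rw [Finset.sum_const, Finset.card_univ, Fintype.card_fin, nsmul_eq_mul]; ring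
          _ ≤ 1 := by
              rw [div_le_one (by positivity)]; linarith
      have h9 : F w b + y = ∑ i : Fin (d + 1),
          (Fin.cons (1 - ∑ i, b i) (fun i => b i) : Fin (d + 1) → ℝ) i • X i := by
        rw [Fin.sum_univ_succ, F_apply]
        simp only [Fin.cons_zero, Fin.cons_succ, h0, h1, smul_add, Finset.sum_add_distrib,
          sub_smul, one_smul, ← Finset.sum_smul]
        abel
      show F w b + y ∈ _
      rw [h9]
      apply (convex_convexHull ℝ _).sum_mem
      · intro i _
        refine Fin.cases ?_ (fun m => ?_) i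
        · simp only [Fin.cons_zero]
          linarith
        · simp only [Fin.cons_succ]
          exact (hb m).1.le
      · rw [Fin.sum_univ_succ]
        simp
      · intro i _
        exact subset_convexHull ℝ _ ⟨i, rfl⟩
    refine le_trans ?_ (measure_mono h8)
    rw [image_add_right, (measurePreserving_add_right volume (-y)).measure_preimage,
      Measure.addHaar_image_linearMap]
    · gcongr
    · have : IsOpen (F w '' SBox d) := by
        have h3 : IsUnit (F w) := by
          rw [LinearMap.isUnit_iff_isUnit_det]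
          exact isUnit_iff_ne_zero.2 hdet
        have h4 : Function.Surjective (F w) := ((Module.End.isUnit_iff _).1 h3).2
        have h5 : IsOpenMap (F w) := LinearMap.isOpenMap_of_finiteDimensional _ h4
        exact h5 _ sbox_open
      exact this.measurableSet.nullMeasurableSet

/-- Large simplices among dense families of tuples. -/
theorem end_lemma (d : ℕ) (c : ℝ) (hc : 0 < c) : ∃ δ : ℝ, 0 < δ ∧
    ∀ S : Set (EuclideanSpace ℝ (Fin d)), MeasurableSet S → 0 < volume S → volume S < ⊤ →
      ∀ G : Set (Fin (d + 2) → EuclideanSpace ℝ (Fin d)), (∀ x ∈ G, ∀ i, x i ∈ S) →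
        ENNReal.ofReal c * volume S ^ (d + 2) ≤ volume G →
        ∃ x ∈ G, ∃ e : Fin (d + 1) ↪ Fin (d + 2), AffineIndependent ℝ (x ∘ e) ∧
          δ * (volume S).toReal ≤ (volume (convexHull ℝ (Set.range (x ∘ e)))).toReal := by
  have hK : volume (Box d) < ⊤ := box_compact.measure_lt_top
  set K : ℝ := (volume (Box d)).toReal with hKdef
  have hK0 : 0 ≤ K := ENNReal.toReal_nonneg
  have hKe : volume (Box d) = ENNReal.ofReal K := (ENNReal.ofReal_toReal hK.ne).symm
  set K2 : ℝ := (volume (SBox d)).toReal with hK2def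
  have hK2 : 0 < K2 := ENNReal.toReal_pos sbox_pos.ne' sbox_lt.ne
  have hK2e : volume (SBox d) = ENNReal.ofReal K2 := (ENNReal.ofReal_toReal sbox_lt.ne).symm
  set t : ℝ := c / (((d : ℝ) + 1) * (K + 1)) with ht
  have hd : (0 : ℝ) < (d : ℝ) + 1 := by positivity
  have ht0 : 0 < t := by positivity
  have htK : ((d : ℝ) + 1) * (t * K) < c := by
    rw [ht]
    have : ((d : ℝ) + 1) * (c / (((d : ℝ) + 1) * (K + 1)) * K) = c * (K / (K + 1)) := by
      field_simp
    rw [this]
    have h1 : K / (K + 1) < 1 := by rw [div_lt_one (by linarith)]; linarith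
    nlinarith
  refine ⟨t * K2, by positivity, ?_⟩
  intro S hS hS0 hSt G hG hvol
  set v : ℝ := (volume S).toReal with hv
  have hv0 : 0 < v := ENNReal.toReal_pos hS0.ne' hSt.ne
  have hve : volume S = ENNReal.ofReal v := (ENNReal.ofReal_toReal hSt.ne).symm
  have hlt : volume (Bad d (t * v) S) < volume G := by
    refine (bad_vol (t * v) hS).trans_lt (lt_of_lt_of_le ?_ hvol)
    rw [hve, hKe, ← ENNReal.ofReal_pow hv0.le, ← ENNReal.ofReal_pow hv0.le,
      ← ENNReal.ofReal_mul (by positivity), ← ENNReal.ofReal_mul (by positivity),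
      ← ENNReal.ofReal_mul hc.le]
    have h2 : ((d : ENNReal) + 1) = ENNReal.ofReal ((d : ℝ) + 1) := by
      rw [ENNReal.ofReal_add (by positivity) (by norm_num)]
      simp
    rw [h2, ← ENNReal.ofReal_mul (by positivity)]
    rw [ENNReal.ofReal_lt_ofReal_iff (by positivity)]
    have h3 : ((d : ℝ) + 1) * (t * v * K * v ^ (d + 1)) =
        ((d : ℝ) + 1) * (t * K) * v ^ (d + 2) := by ring
    rw [h3]
    exact mul_lt_mul_of_pos_right htK (by positivity)
  obtain ⟨x, hxG, hxB⟩ : ∃ x ∈ G, x ∉ Bad d (t * v) S := by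
    by_contra hcon
    push Not at hcon
    exact absurd (measure_mono (μ := volume) hcon) (not_le.2 hlt)
  have hl : ∃ l : Fin (d + 1), t * v ≤ |LinearMap.det (F fun m => x (l.succAbove m).succ - x 0)| := by
    by_contra hcon
    push Not at hcon
    exact hxB ⟨hG x hxG, hcon⟩
  obtain ⟨l, hl⟩ := hl
  refine ⟨x, hxG, Fin.succAboveEmb l.succ, ?_⟩
  have h4 := simplex_large (D := t * v) (by positivity) (x 0)
    (fun m => x (l.succAbove m).succ - x 0) hl (x ∘ Fin.succAboveEmb l.succ)
    (by simp) (by intro m; simp)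
  refine ⟨h4.1, ?_⟩
  have h5 : volume (convexHull ℝ (Set.range (x ∘ Fin.succAboveEmb l.succ))) < ⊤ :=
    ((Set.finite_range _).isCompact_convexHull (𝕜 := ℝ)).measure_lt_top
  have h6 := ENNReal.toReal_mono h5.ne h4.2
  rw [ENNReal.toReal_mul, ENNReal.toReal_ofReal (by positivity)] at h6
  refine le_trans (le_of_eq ?_) h6
  rw [← hK2def]
  ring

end Pool.Agent.H791R3.Skel
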